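import Pool.Agent.Q95.HeisE

/-!
# The `p`-umbel inequality for Heisenberg groups over Banach spaces with property `(β_p)`
-/

namespace Pool.Agent.Results.MP_f1e800_an.Umbel

open Set Filter Q95.Heis
open scoped ENNReal NNReal Topology

universe u

/-- The `p`-umbel inequality with constant `K` for a function `d : M × M → [0, ∞)`. -/
def UmbelIneq {M : Type*} (d : M → M → ℝ≥0) (p K : ℝ) : Prop :=
  ∀ (w z : M) (x : ℕ → M),
    ENNReal.ofReal (1 / 2 ^ p) * (⨅ n, (d w (x n) : ℝ≥0∞) ^ p) +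
      ENNReal.ofReal (1 / K ^ p) *
        (⨅ i, liminf (fun j => (d (x i) (x j) : ℝ≥0∞) ^ p) atTop) ≤
    ENNReal.ofReal (1 / 2) * (d w z : ℝ≥0∞) ^ p +
      ENNReal.ofReal (1 / 2) * (⨆ n, (d (x n) z : ℝ≥0∞) ^ p)

/-- From real numbers to extended non-negative numbers. -/
lemma umbel_of_core {M : Type*} {d : M → M → ℝ≥0} {p κ : ℝ} (hp : 1 < p) (hκ : 0 < κ)
    (h : ∀ (w z : M) (x : ℕ → M) (I T B : ℝ), 0 ≤ I → 0 ≤ T → (∀ n, I ≤ d w (x n)) →
      (∀ i, ∀ᶠ j in atTop, T ≤ d (x i) (x j)) → (∀ n, (d (x n) z : ℝ) ≤ B) →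
      (I / 2) ^ p + κ * T ^ p ≤ ((d w z : ℝ) ^ p + B ^ p) / 2) :
    UmbelIneq d p ((1 / κ) ^ (1 / p)) := by
  intro w z x
  have hp0 : 0 < p := by linarith
  have hK : 1 / ((1 / κ) ^ (1 / p)) ^ p = κ := by
    rw [← Real.rpow_mul (by positivity), one_div_mul_cancel hp0.ne', Real.rpow_one, one_div_one_div]
  rw [hK]
  -- coercions
  have hco : ∀ a b : M, ((d a b : ℝ≥0∞)) ^ p = ENNReal.ofReal ((d a b : ℝ) ^ p) := by
    intro a b
    rw [← ENNReal.ofReal_rpow_of_nonneg (NNReal.coe_nonneg _) hp0.le, ENNReal.ofReal_coe_nnreal]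
  by_cases hS : (⨆ n, (d (x n) z : ℝ≥0∞) ^ p) = ∞
  · rw [hS, ENNReal.mul_top (by simp)]
    simp
  · set S := (⨆ n, (d (x n) z : ℝ≥0∞) ^ p) with hSdef
    set B : ℝ := S.toReal ^ (1 / p) with hBdef
    have hBp : B ^ p = S.toReal := by
      rw [hBdef, ← Real.rpow_mul ENNReal.toReal_nonneg, one_div_mul_cancel hp0.ne', Real.rpow_one]
    have hB : ∀ n, (d (x n) z : ℝ) ≤ B := by
      intro n
      have h1 : (d (x n) z : ℝ≥0∞) ^ p ≤ S := le_iSup (fun n => (d (x n) z : ℝ≥0∞) ^ p) n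
      rw [hco, ENNReal.ofReal_le_iff_le_toReal hS] at h1
      rw [hBdef, ← Real.rpow_le_rpow_iff (NNReal.coe_nonneg _) (by positivity) hp0, hBdef.symm,
        hBp]
      exact h1
    set J := (⨅ n, (d w (x n) : ℝ≥0∞) ^ p) with hJdef
    have hJle : ∀ n, J ≤ (d w (x n) : ℝ≥0∞) ^ p := fun n => iInf_le _ n
    have hJtop : J ≠ ∞ := by
      refine ne_top_of_le_ne_top ?_ (hJle 0)
      rw [hco]; exact ENNReal.ofReal_ne_top
    set I : ℝ := J.toReal ^ (1 / p) with hIdef
    have hIp : I ^ p = J.toReal := by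
      rw [hIdef, ← Real.rpow_mul ENNReal.toReal_nonneg, one_div_mul_cancel hp0.ne', Real.rpow_one]
    have hI0 : 0 ≤ I := by positivity
    have hI : ∀ n, I ≤ d w (x n) := by
      intro n
      have h1 := hJle n
      rw [hco, ← ENNReal.ofReal_toReal hJtop, ENNReal.ofReal_le_ofReal_iff (by positivity)] at h1
      rw [← Real.rpow_le_rpow_iff hI0 (NNReal.coe_nonneg _) hp0, hIp]
      exact h1
    set L := (⨅ i, liminf (fun j => (d (x i) (x j) : ℝ≥0∞) ^ p) atTop) with hLdef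
    -- the main step
    have step : ∀ b : ℝ, 0 ≤ b → (∀ i, ∀ᶠ j in atTop, ENNReal.ofReal b ≤ (d (x i) (x j) : ℝ≥0∞) ^ p) →
        ENNReal.ofReal (1 / 2 ^ p) * J + ENNReal.ofReal κ * ENNReal.ofReal b ≤
        ENNReal.ofReal (1 / 2) * (d w z : ℝ≥0∞) ^ p + ENNReal.ofReal (1 / 2) * S := by
      intro b hb hbT
      have hbp : (b ^ (1 / p)) ^ p = b := by
        rw [← Real.rpow_mul hb, one_div_mul_cancel hp0.ne', Real.rpow_one]
      have h1 := h w z x I (b ^ (1 / p)) B hI0 (by positivity) hI (fun i => by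
        filter_upwards [hbT i] with j hj
        rw [hco, ENNReal.ofReal_le_ofReal_iff (by positivity)] at hj
        rw [← Real.rpow_le_rpow_iff (by positivity) (NNReal.coe_nonneg _) hp0, hbp]
        exact hj) hB
      rw [hbp, hBp, Real.div_rpow hI0 (by norm_num), hIp] at h1
      rw [← ENNReal.ofReal_toReal hJtop, ← ENNReal.ofReal_toReal hS, hco,
        ← ENNReal.ofReal_mul (by positivity), ← ENNReal.ofReal_mul (by positivity),
        ← ENNReal.ofReal_mul (by positivity), ← ENNReal.ofReal_mul (by positivity),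
        ← ENNReal.ofReal_add (by positivity) (by positivity),
        ← ENNReal.ofReal_add (by positivity) (by positivity)]
      apply ENNReal.ofReal_le_ofReal
      calc 1 / 2 ^ p * J.toReal + κ * b = J.toReal / 2 ^ p + κ * b := by ring
        _ ≤ _ := h1
        _ = _ := by ring
    rcases eq_or_ne L 0 with hL | hL
    · rw [hL]
      have := step 0 le_rfl (fun i => Eventually.of_forall fun j => by simp)
      simpa using this
    · have : NeBot (𝓝[<] L) := nhdsLT_neBot_of_exists_lt ⟨0, pos_iff_ne_zero.mpr hL⟩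
      have hcont : Tendsto (fun T' : ℝ≥0∞ => ENNReal.ofReal (1 / 2 ^ p) * J +
          ENNReal.ofReal κ * T') (𝓝[<] L)
          (𝓝 (ENNReal.ofReal (1 / 2 ^ p) * J + ENNReal.ofReal κ * L)) := by
        refine tendsto_const_nhds.add (ENNReal.Tendsto.const_mul
          (tendsto_nhdsWithin_of_tendsto_nhds tendsto_id) (Or.inr ENNReal.ofReal_ne_top))
      refine le_of_tendsto hcont (eventually_nhdsWithin_of_forall fun T' hT' => ?_)
      have hT'top : T' ≠ ∞ := ne_top_of_lt hT'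
      have h2 := step T'.toReal ENNReal.toReal_nonneg (fun i => by
        have h3 : T' < liminf (fun j => (d (x i) (x j) : ℝ≥0∞) ^ p) atTop :=
          lt_of_lt_of_le hT' (iInf_le _ i)
        filter_upwards [eventually_lt_of_lt_liminf h3] with j hj
        rw [ENNReal.ofReal_toReal hT'top]
        exact hj.le)
      rwa [ENNReal.ofReal_toReal hT'top] at h2

/-- For every real Banach space `X` with property `(β_p)`, `p ∈ (1, ∞)`, and every nonzero
antisymmetric bounded bilinear form `ω` on `X`, the Heisenberg group `ℍ(ω)` with the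
Carnot-Carathéodory distance admits an equivalent quasi-metric with the `p`-umbel inequality. -/
theorem result (X : Type u) [NormedAddCommGroup X] [NormedSpace ℝ X] [CompleteSpace X]
    (p : ℝ) (hp : 1 < p) (hX : HasBetaP X p)
    (ω : X →L[ℝ] X →L[ℝ] ℝ) (hanti : ∀ x y, ω x y = -ω y x) (hω : ω ≠ 0) :
    ∃ d : X × ℝ → X × ℝ → ℝ≥0, (∀ a b, d a b = d b a) ∧
      (∃ c C : ℝ≥0, 0 < c ∧ c ≤ C ∧ ∀ a b, (c : ℝ≥0∞) * dcc ω a b ≤ d a b ∧
        (d a b : ℝ≥0∞) ≤ C * dcc ω a b) ∧
      ∃ K : ℝ, 0 < K ∧ UmbelIneq d p K := by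
  have hz : ∀ x, ω x x = 0 := fun x => by
    have := hanti x x
    linarith
  obtain ⟨c, hc, hβ⟩ := hX
  obtain ⟨κ, hκ, hcore⟩ := core (X := X) hp hc hβ
  obtain ⟨C, hC, hdcc⟩ := dcc_le hz hω
  set lam : ℝ := 1 / (3 * (1 + ‖ω‖)) with hlam
  have hn := norm_nonneg ω
  have hlam0 : 0 < lam := by positivity
  have hlam1 : lam ≤ 1 := by
    rw [hlam, div_le_one (by positivity)]
    linarith
  have hlamω : lam ^ 2 * ‖ω‖ ≤ 1 / 8 := by
    rw [hlam, div_pow, one_pow, div_mul_eq_mul_div, one_mul, div_le_iff₀ (by positivity)]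
    nlinarith [sq_nonneg (‖ω‖ - 1)]
  have hd0 : ∀ a b, 0 ≤ hd ω lam a b := hd_nonneg ω lam
  refine ⟨fun a b => ⟨hd ω lam a b, hd0 a b⟩, fun a b => ?_, ?_, ?_⟩
  · apply NNReal.eq
    exact hd_symm hz lam a b
  · -- equivalence with `dcc`
    refine ⟨min 1 (lam / C).toNNReal, 1, lt_min one_pos (Real.toNNReal_pos.mpr (by positivity)),
      min_le_left _ _, fun a b => ⟨?_, ?_⟩⟩
    · have h1 := hdcc a b
      have h2 : max ‖b.1 - a.1‖ (Real.sqrt |b.2 - a.2 - ω a.1 b.1|) ≤ hd ω lam a b / lam := by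
        rw [le_div_iff₀ hlam0]
        have e1 : ‖b.1 - a.1‖ ≤ hd ω lam a b := by
          rw [norm_sub_rev]; exact le_max_left _ _
        have e2 : lam * Real.sqrt |b.2 - a.2 - ω a.1 b.1| ≤ hd ω lam a b := by
          have : |b.2 - a.2 - ω a.1 b.1| = |a.2 - b.2 + ω a.1 b.1| := by
            rw [← abs_neg]; congr 1; ring
          rw [this]; exact le_max_right _ _
        rcases le_total ‖b.1 - a.1‖ (Real.sqrt |b.2 - a.2 - ω a.1 b.1|) with h | h
        · rw [max_eq_right h, mul_comm]; exact e2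
        · rw [max_eq_left h]
          calc ‖b.1 - a.1‖ * lam ≤ ‖b.1 - a.1‖ * 1 :=
                mul_le_mul_of_nonneg_left hlam1 (norm_nonneg _)
            _ ≤ _ := by rw [mul_one]; exact e1
      have h3 : dcc ω a b ≤ ENNReal.ofReal (C * (hd ω lam a b / lam)) :=
        h1.trans (ENNReal.ofReal_le_ofReal (mul_le_mul_of_nonneg_left h2 hC.le))
      have h4 : ((min 1 (lam / C).toNNReal : ℝ≥0) : ℝ≥0∞) ≤ ENNReal.ofReal (lam / C) := by
        rw [ENNReal.ofReal]
        exact_mod_cast min_le_right _ _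
      calc ((min 1 (lam / C).toNNReal : ℝ≥0) : ℝ≥0∞) * dcc ω a b
          ≤ ENNReal.ofReal (lam / C) * ENNReal.ofReal (C * (hd ω lam a b / lam)) :=
            mul_le_mul' h4 h3
        _ = ENNReal.ofReal (hd ω lam a b) := by
            rw [← ENNReal.ofReal_mul (by positivity)]
            congr 1
            field_simp
        _ = _ := ENNReal.ofReal_eq_coe_nnreal (hd0 a b)
    · refine (ENNReal.ofReal_eq_coe_nnreal (hd0 a b)).symm.le.trans ?_
      rw [ENNReal.coe_one, one_mul]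
      unfold dcc
      refine le_iInf fun γ => le_iInf fun z => le_iInf fun hH => le_iInf fun h0 => le_iInf fun h1 => ?_
      obtain ⟨hfin, hn1, hn2⟩ := displacement hz hH
      rw [← ENNReal.ofReal_toReal hfin]
      apply ENNReal.ofReal_le_ofReal
      set L := (eVariationOn γ (Icc 0 1)).toReal with hL
      have hL0 : 0 ≤ L := ENNReal.toReal_nonneg
      rw [← h0, ← h1]
      unfold hd
      refine max_le ?_ ?_
      · rw [norm_sub_rev]; exact hn1
      · simp only
        apply le_of_sq_le_sq _ hL0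
        rw [mul_pow, Real.sq_sqrt (abs_nonneg _)]
        have e : |z 0 - z 1 + ω (γ 0) (γ 1)| = |z 1 - z 0 - ω (γ 0) (γ 1)| := by
          rw [← abs_neg]; congr 1; ring
        rw [e]
        have h5 := mul_le_mul_of_nonneg_left hn2 (sq_nonneg lam)
        have h6 : (lam ^ 2 * ‖ω‖) * L ^ 2 ≤ 1 / 8 * L ^ 2 :=
          mul_le_mul_of_nonneg_right hlamω (sq_nonneg L)
        nlinarith [sq_nonneg L]
  · refine ⟨(1 / κ) ^ (1 / p), by positivity, umbel_of_core hp hκ ?_⟩
    intro w z x I T B hI0 hT0 hI hT hB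
    exact hcore ω hz lam hlam0 hlamω w z x I T B hI0 hT0 hI hT hB

end Pool.Agent.Results.MP_f1e800_an.Umbel
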